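import Mathlib
import Pool.Agent.H28.Plane6

namespace Pool.Agent.Results.MP_8fd344_co.NotSpectral

open Pool.Agent.H28.Plane Classical

theorem result : ∃ G G' : ℕ → BG, (∀ n, (G n).HasEdge ∧ (G' n).HasEdge) ∧
    (∀ n, (G n).spec = (G' n).spec ∧ (G n).adj.charpoly = (G' n).adj.charpoly) ∧
    BG.QL G ∧ ¬ BG.QL G' := by
  obtain ⟨G, G', h1, h2, h3⟩ := BG.main
  exact ⟨G, G', h1, fun n => ⟨by rw [BG.spec, BG.spec, h2], h2 n⟩, h3⟩

end Pool.Agent.Results.MP_8fd344_co.NotSpectral
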